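import Pool.Agent.Helper925_SC.Final

open Set
open Pool.Agent.Helper925_SC

namespace Pool.Agent.Results.MP_ae4adf_co.NoSurroundCount

/-- There is no function `f` as in the question.  In fact, already for `n = 5` and `m = 1`: for
every `k` there is a set of five prototiles that does not admit a tiling of the plane, although
single tiles form patches and every patch that contains exactly one tile can be surrounded `k`
times. -/
theorem result :
    (∀ k : ℕ, ∃ S : Set (Set ℂ), S.ncard = 5 ∧ (∀ P ∈ S, IsDisk P) ∧ ¬ AdmitsTiling S ∧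
      (∃ A, IsPatch S A ∧ A.ncard = 1) ∧
      ∀ A, IsPatch S A → A.ncard = 1 → CanSurround S k A) ∧
    ¬ ∃ f : ℕ → ℕ → ℕ, ∀ n m : ℕ, 0 < n → 0 < m → ∀ S : Set (Set ℂ), S.ncard = n →
      (∀ P ∈ S, IsDisk P) → (∃ A, IsPatch S A ∧ A.ncard = m) →
      (∀ A, IsPatch S A → A.ncard = m → CanSurround S (f n m) A) → AdmitsTiling S := by
  refine ⟨five, ?_⟩
  rintro ⟨f, hf⟩
  obtain ⟨S, h1, h2, h3, h4, h5⟩ := five (f 5 1)
  exact h3 (hf 5 1 (by norm_num) one_pos S h1 h2 h4 h5)

end Pool.Agent.Results.MP_ae4adf_co.NoSurroundCount
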